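import Mathlib

/-!
# The number of 2-irreducible posets of 2-dimension `t` is not polynomially bounded

Every ordinal sum `P` of antichains with two or three elements has 2-dimension `|P|`, while
`P` without a point embeds into the Boolean lattice with `|P| - 1` atoms; so `P` is
2-irreducible.  There are at least `2^s` such ordinal sums with `5 s` elements.
-/

namespace Pool.Agent.Results.MP_f639ae_co.ManyIrreducible

open Finset

/-- The `k`-dimension: the least `t` such that there is an order embedding into `k^t`. -/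
noncomputable def kdim (k : ℕ) (α : Type) [PartialOrder α] : ℕ :=
  sInf {t | ∃ f : α → (Fin t → Fin k), ∀ x y, f x ≤ f y ↔ x ≤ y}

/-- `k`-irreducible posets. -/
def Irred (k : ℕ) (α : Type) [PartialOrder α] : Prop :=
  ∀ x : α, kdim k {y : α // y ≠ x} < kdim k α

/-- Finite posets. -/
structure FinPoset : Type 1 where
  carrier : Type
  [ord : PartialOrder carrier]
  [fin : Finite carrier]

attribute [instance] FinPoset.ord FinPoset.fin

/-- Isomorphism of finite posets. -/
instance isoSetoid : Setoid FinPoset where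
  r P Q := Nonempty (P.carrier ≃o Q.carrier)
  iseqv := ⟨fun _ => ⟨OrderIso.refl _⟩, fun ⟨e⟩ => ⟨e.symm⟩, fun ⟨e⟩ ⟨f⟩ => ⟨e.trans f⟩⟩

/-- The number of isomorphism classes of `k`-irreducible posets of `k`-dimension `t`. -/
noncomputable def N (k t : ℕ) : ℕ∞ :=
  Set.encard {c : Quotient isoSetoid | ∃ P : FinPoset, Quotient.mk isoSetoid P = c ∧
    Irred k P.carrier ∧ kdim k P.carrier = t}

/-! ### Ordinal sums of antichains -/

/-- The points of the ordinal sum of antichains with `c 0, ..., c (r-1)` elements. -/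
@[ext] structure Pt (r : ℕ) (c : ℕ → ℕ) : Type where
  i : ℕ
  a : ℕ
  hi : i < r
  ha : a < c i

variable {r : ℕ} {c : ℕ → ℕ}

instance : PartialOrder (Pt r c) where
  le x y := x = y ∨ x.i < y.i
  le_refl x := Or.inl rfl
  le_trans x y z h1 h2 := by
    rcases h1 with rfl | h1
    · exact h2
    · rcases h2 with rfl | h2
      · exact Or.inr h1
      · exact Or.inr (h1.trans h2)
  le_antisymm x y h1 h2 := by
    rcases h1 with h1 | h1
    · exact h1
    · rcases h2 with h2 | h2
      · exact h2.symm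
      · omega

lemma le_def (x y : Pt r c) : x ≤ y ↔ x = y ∨ x.i < y.i := Iff.rfl

lemma lt_def (x y : Pt r c) : x < y ↔ x.i < y.i := by
  rw [lt_iff_le_and_ne, le_def]
  constructor
  · rintro ⟨h | h, h2⟩
    · exact (h2 h).elim
    · exact h
  · intro h
    refine ⟨Or.inr h, ?_⟩
    rintro rfl
    exact lt_irrefl _ h

/-- The points as a sigma type. -/
def equivSigma (r : ℕ) (c : ℕ → ℕ) : Pt r c ≃ ((i : Fin r) × Fin (c i.val)) where
  toFun x := ⟨⟨x.i, x.hi⟩, ⟨x.a, x.ha⟩⟩
  invFun x := ⟨x.1.val, x.2.val, x.1.isLt, x.2.isLt⟩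
  left_inv _ := rfl
  right_inv _ := rfl

instance : Finite (Pt r c) := Finite.of_equiv _ (equivSigma r c).symm

lemma card_Pt (r : ℕ) (c : ℕ → ℕ) : Nat.card (Pt r c) = ∑ i ∈ range r, c i := by
  rw [Nat.card_congr (equivSigma r c), Nat.card_eq_fintype_card, Fintype.card_sigma]
  simp only [Fintype.card_fin]
  exact Fin.sum_univ_eq_sum_range c r

/-- The number of points below a point. -/
lemma card_below (x : Pt r c) : Nat.card {y : Pt r c // y < x} = ∑ i ∈ range x.i, c i := by
  rw [← card_Pt]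
  refine Nat.card_congr ⟨fun y => ⟨y.1.i, y.1.a, (lt_def _ _).1 y.2, y.1.ha⟩,
    fun y => ⟨⟨y.i, y.a, y.hi.trans x.hi, y.ha⟩, (lt_def _ _).2 y.hi⟩, fun _ => rfl, fun _ => rfl⟩

/-- The number of points that are not strictly comparable to a point. -/
lemma card_level (x : Pt r c) : Nat.card {y : Pt r c // ¬ y < x ∧ ¬ x < y} = c x.i := by
  have h : ∀ y : Pt r c, (¬ y < x ∧ ¬ x < y) ↔ y.i = x.i := by
    intro y
    rw [lt_def, lt_def]
    omega
  rw [show c x.i = Nat.card (Fin (c x.i)) by rw [Nat.card_eq_fintype_card, Fintype.card_fin]]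
  refine Nat.card_congr ⟨fun y => ⟨y.1.a, by rw [← (h y.1).1 y.2]; exact y.1.ha⟩,
    fun a => ⟨⟨x.i, a.val, x.hi, a.isLt⟩, (h _).2 rfl⟩, ?_, fun _ => rfl⟩
  intro y
  apply Subtype.ext
  exact Pt.ext ((h y.1).1 y.2).symm rfl

/-! ### The dimension -/

lemma kdim_le_card (α : Type) [PartialOrder α] [Finite α] :
    Nat.card α ∈ {t | ∃ f : α → (Fin t → Fin 2), ∀ x y, f x ≤ f y ↔ x ≤ y} := by
  classical
  let e : α ≃ Fin (Nat.card α) := Finite.equivFin α
  refine ⟨fun x j => if e.symm j ≤ x then 1 else 0, fun x y => ?_⟩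
  constructor
  · intro h
    have h1 := h (e x)
    simp only [Equiv.symm_apply_apply, le_refl, if_true] at h1
    by_contra hxy
    rw [if_neg hxy] at h1
    have h2 : ¬ (1 : Fin 2) ≤ 0 := by decide
    exact h2 h1
  · intro h j
    by_cases h1 : e.symm j ≤ x
    · simp only [h1, h1.trans h, if_true, le_refl]
    · simp only [h1, if_false]
      exact Fin.zero_le _

/-- The supports of the images of the points in the first `n` blocks. -/
noncomputable def U {t : ℕ} (f : Pt r c → (Fin t → Fin 2)) (n : ℕ) : Finset (Fin t) :=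
  by classical exact univ.filter fun j => ∃ x : Pt r c, x.i < n ∧ f x j = 1

lemma mem_U {t : ℕ} (f : Pt r c → (Fin t → Fin 2)) (n : ℕ) (j : Fin t) :
    j ∈ U f n ↔ ∃ x : Pt r c, x.i < n ∧ f x j = 1 := by
  unfold U
  simp

lemma fin2_le {a b : Fin 2} (h : a ≤ b) (ha : a = 1) : b = 1 := by
  subst ha
  revert h
  revert b
  decide

/-- Two incomparable functions differ in both directions. -/
lemma exists_sep {t : ℕ} {g h : Fin t → Fin 2} (hgh : ¬ g ≤ h) : ∃ j, g j = 1 ∧ h j ≠ 1 := by
  rw [Pi.le_def] at hgh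
  push Not at hgh
  obtain ⟨j, hj⟩ := hgh
  refine ⟨j, ?_, ?_⟩
  · revert hj
    generalize g j = a
    generalize h j = b
    revert a b
    decide
  · revert hj
    generalize g j = a
    generalize h j = b
    revert a b
    decide

lemma card_U_ge {t : ℕ} (f : Pt r c → (Fin t → Fin 2)) (hf : ∀ x y, f x ≤ f y ↔ x ≤ y)
    (hc : ∀ i, c i = 2 ∨ c i = 3) (n : ℕ) (hn : n ≤ r) : ∑ i ∈ range n, c i ≤ (U f n).card := by
  classical
  induction n with
  | zero => simp
  | succ n ih =>
    have ih' := ih (by omega)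
    rw [Finset.sum_range_succ]
    -- points of block `n`
    have hin : ∀ x : Pt r c, x.i = n → ∀ j ∈ U f n, f x j = 1 := by
      intro x hx j hj
      rw [mem_U] at hj
      obtain ⟨y, hy, hyj⟩ := hj
      have h1 : f y ≤ f x := (hf y x).2 (Or.inr (by omega))
      exact fin2_le (h1 j) hyj
    have hsub : U f n ⊆ U f (n + 1) := by
      intro j hj
      rw [mem_U] at hj ⊢
      obtain ⟨y, hy, hyj⟩ := hj
      exact ⟨y, by omega, hyj⟩
    have hmem : ∀ x : Pt r c, x.i = n → ∀ j, f x j = 1 → j ∈ U f (n + 1) := by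
      intro x hx j hj
      rw [mem_U]
      exact ⟨x, by omega, hj⟩
    have hinc : ∀ x y : Pt r c, x.i = n → y.i = n → x.a ≠ y.a → ∃ j, f x j = 1 ∧ f y j ≠ 1 := by
      intro x y hx hy hxy
      apply exists_sep
      rw [hf, le_def]
      rintro (h | h)
      · exact hxy (by rw [h])
      · omega
    have hc2 : 2 ≤ c n := by rcases hc n with h | h <;> omega
    let x0 : Pt r c := ⟨n, 0, by omega, by omega⟩
    let x1 : Pt r c := ⟨n, 1, by omega, by omega⟩
    obtain ⟨p, hp0, hp1⟩ := hinc x0 x1 rfl rfl (by change (0 : ℕ) ≠ 1; decide)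
    obtain ⟨q, hq1, hq0⟩ := hinc x1 x0 rfl rfl (by change (1 : ℕ) ≠ 0; decide)
    have hpq : p ≠ q := by
      rintro rfl
      exact hq0 hp0
    have hpU : p ∉ U f n := fun h => hp1 (hin x1 rfl p h)
    have hqU : q ∉ U f n := fun h => hq0 (hin x0 rfl q h)
    rcases hc n with h2 | h3
    · have h4 : insert p (insert q (U f n)) ⊆ U f (n + 1) := by
        intro j hj
        rw [Finset.mem_insert, Finset.mem_insert] at hj
        rcases hj with rfl | rfl | hj
        · exact hmem x0 rfl _ hp0
        · exact hmem x1 rfl _ hq1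
        · exact hsub hj
      have h5 := Finset.card_le_card h4
      rw [Finset.card_insert_of_notMem (by simp [hpq, hpU]),
        Finset.card_insert_of_notMem hqU] at h5
      omega
    · let x2 : Pt r c := ⟨n, 2, by omega, by omega⟩
      -- a third coordinate
      have h3' : ∃ s, s ≠ p ∧ s ≠ q ∧ s ∉ U f n ∧ s ∈ U f (n + 1) := by
        obtain ⟨a, ha2, ha0⟩ := hinc x2 x0 rfl rfl (by change (2 : ℕ) ≠ 0; decide)
        obtain ⟨b, hb2, hb1⟩ := hinc x2 x1 rfl rfl (by change (2 : ℕ) ≠ 1; decide)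
        obtain ⟨d, hd0, hd2⟩ := hinc x0 x2 rfl rfl (by change (0 : ℕ) ≠ 2; decide)
        by_cases haq : a = q
        · by_cases hbp : b = p
          · refine ⟨d, ?_, ?_, fun h => hd2 (hin x2 rfl d h), hmem x0 rfl d hd0⟩
            · rintro rfl
              exact hd2 (hbp ▸ hb2)
            · rintro rfl
              exact hd2 (haq ▸ ha2)
          · refine ⟨b, hbp, ?_, fun h => hb1 (hin x1 rfl b h), hmem x2 rfl b hb2⟩
            rintro rfl
            exact hb1 hq1
        · refine ⟨a, ?_, haq, fun h => ha0 (hin x0 rfl a h), hmem x2 rfl a ha2⟩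
          rintro rfl
          exact ha0 hp0
      obtain ⟨s, hsp, hsq, hsU, hs⟩ := h3'
      have h4 : insert s (insert p (insert q (U f n))) ⊆ U f (n + 1) := by
        intro j hj
        rw [Finset.mem_insert, Finset.mem_insert, Finset.mem_insert] at hj
        rcases hj with rfl | rfl | rfl | hj
        · exact hs
        · exact hmem x0 rfl _ hp0
        · exact hmem x1 rfl _ hq1
        · exact hsub hj
      have h5 := Finset.card_le_card h4
      rw [Finset.card_insert_of_notMem (by simp [hsp, hsq, hsU]),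
        Finset.card_insert_of_notMem (by simp [hpq, hpU]),
        Finset.card_insert_of_notMem hqU] at h5
      omega

lemma kdim_Pt (hc : ∀ i, c i = 2 ∨ c i = 3) : kdim 2 (Pt r c) = ∑ i ∈ range r, c i := by
  apply le_antisymm
  · rw [← card_Pt]
    exact Nat.sInf_le (kdim_le_card _)
  · unfold kdim
    apply le_csInf ⟨_, kdim_le_card _⟩
    rintro t ⟨f, hf⟩
    have h1 := card_U_ge f hf hc r le_rfl
    have h2 := Finset.card_le_univ (U f r)
    rw [Fintype.card_fin] at h2
    omega

lemma irred_Pt (hc : ∀ i, c i = 2 ∨ c i = 3) : Irred 2 (Pt r c) := by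
  intro x
  rw [kdim_Pt hc, ← card_Pt]
  have h1 : kdim 2 {y : Pt r c // y ≠ x} ≤ Nat.card {y : Pt r c // y ≠ x} :=
    Nat.sInf_le (kdim_le_card _)
  refine lt_of_le_of_lt h1 ?_
  exact Finite.card_subtype_lt (x := x) (by simp)

/-! ### The family -/

/-- The block sizes attached to a 0-1 sequence. -/
def blocks (b : ℕ → Bool) (i : ℕ) : ℕ :=
  if i % 2 = 0 then (if b (i / 2) then 2 else 3) else (if b (i / 2) then 3 else 2)

lemma blocks_cases (b : ℕ → Bool) (i : ℕ) : blocks b i = 2 ∨ blocks b i = 3 := by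
  unfold blocks
  split_ifs <;> simp

lemma sum_blocks (b : ℕ → Bool) (s : ℕ) : ∑ i ∈ range (2 * s), blocks b i = 5 * s := by
  induction s with
  | zero => simp
  | succ s ih =>
    rw [show 2 * (s + 1) = 2 * s + 1 + 1 by ring, Finset.sum_range_succ, Finset.sum_range_succ, ih]
    have h1 : (2 * s) % 2 = 0 := by omega
    have h2 : (2 * s + 1) % 2 ≠ 0 := by omega
    have h3 : (2 * s) / 2 = s := by omega
    have h4 : (2 * s + 1) / 2 = s := by omega
    simp only [blocks, h1, h2, h3, h4, if_true, if_false]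
    split_ifs <;> ring

/-- Isomorphic ordinal sums have the same block sizes. -/
lemma blocks_eq {c d : ℕ → ℕ} (hc : ∀ i, 0 < c i) (hd : ∀ i, 0 < d i)
    (e : Pt r c ≃o Pt r d) (i : ℕ) (hi : i < r) : c i = d i := by
  induction i using Nat.strong_induction_on with
  | _ i ih =>
    have hS : ∑ j ∈ range i, c j = ∑ j ∈ range i, d j :=
      Finset.sum_congr rfl fun j hj => ih j (Finset.mem_range.1 hj) ((Finset.mem_range.1 hj).trans hi)
    let x : Pt r c := ⟨i, 0, hi, hc i⟩
    have h1 : Nat.card {y : Pt r c // y < x} = Nat.card {y : Pt r d // y < e x} :=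
      Nat.card_congr (e.toEquiv.subtypeEquiv fun y => (e.lt_iff_lt).symm)
    have h2 : Nat.card {y : Pt r c // ¬ y < x ∧ ¬ x < y} =
        Nat.card {y : Pt r d // ¬ y < e x ∧ ¬ e x < y} :=
      Nat.card_congr (e.toEquiv.subtypeEquiv fun y => by
        rw [← e.lt_iff_lt (x := y), ← e.lt_iff_lt (x := x)]
        rfl)
    rw [card_below, card_below] at h1
    rw [card_level, card_level] at h2
    have h3 : (e x).i = i := by
      have h4 : ∑ j ∈ range i, d j = ∑ j ∈ range (e x).i, d j := by rw [← hS]; exact h1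
      have hmono : StrictMono fun n => ∑ j ∈ range n, d j := by
        apply strictMono_nat_of_lt_succ
        intro n
        rw [Finset.sum_range_succ]
        have := hd n
        omega
      exact (hmono.injective h4).symm
    rw [h3] at h2
    exact h2

lemma N_ge (s : ℕ) : (2 : ℕ∞) ^ s ≤ N 2 (5 * s) := by
  let ext : (Fin s → Bool) → ℕ → Bool := fun b j => if h : j < s then b ⟨j, h⟩ else false
  let F : (Fin s → Bool) → Quotient isoSetoid := fun b =>
    Quotient.mk isoSetoid ⟨Pt (2 * s) (blocks (ext b))⟩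
  have hF : Function.Injective F := by
    intro b b' h
    obtain ⟨e⟩ := Quotient.exact h
    funext j
    have h1 := blocks_eq (c := blocks (ext b)) (d := blocks (ext b'))
      (fun i => by rcases blocks_cases (ext b) i with h | h <;> omega)
      (fun i => by rcases blocks_cases (ext b') i with h | h <;> omega) e (2 * j.val)
      (by have := j.isLt; omega)
    have h2 : (2 * j.val) % 2 = 0 := by omega
    have h3 : (2 * j.val) / 2 = j.val := by omega
    simp only [blocks, h2, h3, if_true, ext, j.isLt, dif_pos] at h1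
    cases hb : b j <;> cases hb' : b' j <;> simp_all
  have h1 : Set.range F ⊆ {c : Quotient isoSetoid | ∃ P : FinPoset, Quotient.mk isoSetoid P = c ∧
    Irred 2 P.carrier ∧ kdim 2 P.carrier = 5 * s} := by
    rintro _ ⟨b, rfl⟩
    refine ⟨_, rfl, irred_Pt (blocks_cases _), ?_⟩
    rw [kdim_Pt (blocks_cases _)]
    exact sum_blocks _ s
  have h2 := Set.encard_le_encard h1
  have h3 : (Set.range F).encard = 2 ^ s := by
    rw [← Set.image_univ, hF.encard_image, Set.encard_univ]
    simp
  rw [h3] at h2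
  exact h2

/-- **`N_2(5 s) ≥ 2^s`; in particular `N_2(t)` is not bounded by a polynomial in `t`.** -/
theorem result : (∀ s : ℕ, (2 : ℕ∞) ^ s ≤ N 2 (5 * s)) ∧
    ¬ ∃ C m : ℕ, ∀ t : ℕ, 1 ≤ t → N 2 t ≤ ((C * t ^ m : ℕ) : ℕ∞) := by
  refine ⟨N_ge, ?_⟩
  rintro ⟨C, m, h⟩
  have h1 : ∀ s : ℕ, 1 ≤ s → 2 ^ s ≤ C * (5 * s) ^ m := by
    intro s hs
    have h2 := (N_ge s).trans (h (5 * s) (by omega))
    exact_mod_cast h2
  have h3 := tendsto_pow_const_div_const_pow_of_one_lt m (r := (2 : ℝ)) (by norm_num)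
  have h4 : ∀ᶠ s : ℕ in Filter.atTop, (s : ℝ) ^ m / 2 ^ s < 1 / (C * 5 ^ m + 1) :=
    h3.eventually_lt_const (by positivity)
  obtain ⟨s, hs1, hs2⟩ := (h4.and (Filter.eventually_ge_atTop 1)).exists
  have h5 : (2 : ℝ) ^ s ≤ C * (5 * s) ^ m := by exact_mod_cast h1 s hs2
  rw [div_lt_div_iff₀ (by positivity) (by positivity)] at hs1
  have h6 : (C : ℝ) * (5 * s) ^ m = (s : ℝ) ^ m * (C * 5 ^ m) := by
    rw [mul_pow]; ring
  have h7 : (0 : ℝ) ≤ (s : ℝ) ^ m := by positivity
  nlinarith

end Pool.Agent.Results.MP_f639ae_co.ManyIrreducible
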